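import Mathlib

set_option autoImplicit false

/-!
# The base 4 valuation of the coloured 4-ary partition counts `S_{4,t}(n)` (MP_c46995_nt)

For all `s ≥ 3`, `m ≥ 0`, `n ≥ 0` the greatest exponents of `4` in `S_{4,t}(n)` and `S_{4,t'}(n)`,
`t = 2^s m + 2^(s-1)` and `t' = 2^(s-1)`, agree; in fact the 2-adic valuations agree.

Proof. Let `R(x) = (1 - x^4) / (1 - x)^4`. The generating function of `S_{4,t}` is
`∏_i R(x^(4^i))^t`. Put `g(x) = 4 ∑_{k odd} x^k + ∑_{k ≡ 2 (mod 4)} k x^k`. A polynomial identity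
gives `R^4 ≡ 1 + 4 g (mod 32)`, and by squaring and multiplying `R^t ≡ 1 + t g (mod 2^(v + 3))`, where
`2^v` divides `t` and `v ≥ 2`. So `S_{4,t}(n) ≡ t ∑_i [x^n] g(x^(4^i)) (mod 2^(v+3))` for `n ≥ 1`, and
exactly one `i` contributes: `S_{4,t}(n) ≡ 4 t` if `v_2(n)` is even and `S_{4,t}(n) ≡ 2 t k` with `k`
odd if `v_2(n)` is odd.
-/

namespace Pool.Agent.Results.MP_c46995_nt.ShiftInvariance

open PowerSeries

/-- `S_{4,t}(n)`, the coefficient of `x^n` in `(1 - x)^(-t) ∏_i (1 - x^(4^i))^(-3t)`; the factors with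
`i > n` have no influence on this coefficient and are omitted -/
noncomputable def S (t n : ℕ) : ℤ :=
  coeff n (invOfUnit
    ((1 - X) ^ t * ∏ i ∈ Finset.range (n + 1), (1 - X ^ 4 ^ i) ^ (3 * t) : ℤ⟦X⟧) 1)

/-- `R ^ 4 = 1 + 8 G + 32 z` -/
lemma key {Λ : Type*} [CommRing Λ] (y w v : Λ) (hw : w * (1 - y) = 1) (hv : v * (1 - y ^ 4) = 1) :
    ∃ z, ((1 - y ^ 4) * w ^ 4) ^ 4 =
      1 + 8 * (2 * y * (1 + y ^ 2) * v + y ^ 2 * (1 + y ^ 4) * v ^ 2) + 32 * z := by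
  have h16 : w ^ 16 * (1 - y) ^ 16 = 1 := by rw [← mul_pow, hw, one_pow]
  have hv2 : v ^ 2 * (1 - y ^ 4) ^ 2 = 1 := by rw [← mul_pow, hv, one_pow]
  refine ⟨(4 * y ^ 2 - 39 * y ^ 3 + 201 * y ^ 4 - 694 * y ^ 5 + 1758 * y ^ 6 - 3435 * y ^ 7
    + 5296 * y ^ 8 - 6384 * y ^ 9 + 5550 * y ^ 10 - 2134 * y ^ 11 - 3314 * y ^ 12 + 8916 * y ^ 13
    - 12402 * y ^ 14 + 12554 * y ^ 15 - 9936 * y ^ 16 + 6272 * y ^ 17 - 3154 * y ^ 18
    + 1245 * y ^ 19 - 375 * y ^ 20 + 82 * y ^ 21 - 12 * y ^ 22 + y ^ 23) * w ^ 16 * v ^ 2, ?_⟩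
  linear_combination (-((1 - y ^ 4) ^ 4 * w ^ 16)) * hv2 +
    v ^ 2 * ((1 - y ^ 4) ^ 2 + 16 * y * (1 + y ^ 2) * (1 - y ^ 4) + 8 * y ^ 2 * (1 + y ^ 4)) * h16 +
    hv2 + 16 * y * (1 + y ^ 2) * v * hv

lemma pow_two {Λ : Type*} [CommRing Λ] (R G : Λ) (h : ∃ z, R ^ 4 = 1 + 8 * G + 32 * z) (k : ℕ) :
    ∃ z, R ^ (2 ^ (k + 2)) = 1 + 2 * 2 ^ (k + 2) * G + 8 * 2 ^ (k + 2) * z := by
  induction k with
  | zero =>
    obtain ⟨z, hz⟩ := h
    exact ⟨z, by rw [show 2 ^ (0 + 2) = 4 by norm_num, hz]; ring⟩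
  | succ k ih =>
    obtain ⟨z, hz⟩ := ih
    refine ⟨z + 2 ^ k * (G + 4 * z) ^ 2, ?_⟩
    rw [show 2 ^ (k + 1 + 2) = 2 ^ (k + 2) * 2 by ring, pow_mul, hz]
    ring

lemma prod_form {Λ ι : Type*} [CommRing Λ] (M : Λ) (s : Finset ι) (R G : ι → Λ) (t : ι → Λ)
    (h : ∀ i ∈ s, ∃ z, R i = 1 + 2 * (2 * M * t i) * G i + 8 * (2 * M) * z) :
    ∃ z, ∏ i ∈ s, R i = 1 + 2 * ∑ i ∈ s, (2 * M * t i) * G i + 8 * (2 * M) * z := by
  classical
  induction s using Finset.induction_on with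
  | empty => exact ⟨0, by simp⟩
  | insert a s ha ih =>
    obtain ⟨z, hz⟩ := ih (fun i hi => h i (Finset.mem_insert_of_mem hi))
    obtain ⟨z', hz'⟩ := h a (Finset.mem_insert_self a s)
    rw [Finset.prod_insert ha, Finset.sum_insert ha, hz, hz']
    have h2 : ∑ i ∈ s, (2 * M * t i) * G i = 2 * M * ∑ i ∈ s, t i * G i := by
      rw [Finset.mul_sum]
      exact Finset.sum_congr rfl fun i _ => by ring
    rw [h2]
    refine ⟨z' + z + M * t a * G a * (∑ i ∈ s, t i * G i) + 16 * M * z * z'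
      + 4 * M * t a * G a * z + 4 * M * (∑ i ∈ s, t i * G i) * z', ?_⟩
    ring

lemma pow_form {Λ : Type*} [CommRing Λ] (R G : Λ) (k u : ℕ)
    (h : ∃ z, R ^ (2 ^ (k + 2)) = 1 + 2 * 2 ^ (k + 2) * G + 8 * 2 ^ (k + 2) * z) :
    ∃ z, R ^ (2 ^ (k + 2) * u) =
      1 + 2 * (2 * 2 ^ (k + 1) * (u : Λ)) * G + 8 * (2 * 2 ^ (k + 1)) * z := by
  obtain ⟨z, hz⟩ := prod_form (2 ^ (k + 1) : Λ) (Finset.range u) (fun _ => R ^ (2 ^ (k + 2)))
    (fun _ => G) (fun _ => 1) (by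
      intro i _
      obtain ⟨z, hz⟩ := h
      exact ⟨z, by rw [hz]; ring⟩)
  refine ⟨z, ?_⟩
  rw [Finset.prod_const, Finset.card_range, Finset.sum_const, Finset.card_range, nsmul_eq_mul,
    ← pow_mul] at hz
  rw [hz]
  ring

/-- `1 / (1 - x^(4^i))` -/
noncomputable def w (i : ℕ) : ℤ⟦X⟧ := expand (4 ^ i) (by positivity) (mk 1)

lemma w_mul (i : ℕ) : w i * (1 - X ^ 4 ^ i) = 1 := by
  have h : (mk 1 : ℤ⟦X⟧) * (1 - X) = 1 := mk_one_mul_one_sub_eq_one ℤ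
  have h2 := congrArg (expand (4 ^ i) (by positivity)) h
  rw [map_mul, map_sub, map_one, expand_X] at h2
  exact h2

/-- the series `2 ∑_{k odd} x^k + ∑_{k ≡ 2 (mod 4)} (k / 2) x^k` -/
noncomputable def G0 : ℤ⟦X⟧ :=
  mk fun n => if n % 2 = 1 then 2 else if n % 4 = 2 then ((n / 2 : ℕ) : ℤ) else 0

lemma G0_eq : G0 * (1 - X ^ 4) ^ 2 = 2 * X * (1 + X ^ 2) * (1 - X ^ 4) + X ^ 2 * (1 + X ^ 4) := by
  have h1 : G0 * (1 - X ^ 4) ^ 2 = G0 - 2 * (X ^ 4 * G0) + X ^ 8 * G0 := by ring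
  have h2 : (2 * X * (1 + X ^ 2) * (1 - X ^ 4) + X ^ 2 * (1 + X ^ 4) : ℤ⟦X⟧) =
    C 2 * X ^ 1 + C 2 * X ^ 3 - C 2 * X ^ 5 - C 2 * X ^ 7 + X ^ 2 + X ^ 6 := by
    rw [show (C 2 : ℤ⟦X⟧) = 2 from rfl]
    ring
  rw [h1, h2, show (2 : ℤ⟦X⟧) = C 2 from rfl]
  ext n
  simp only [map_add, map_sub, coeff_C_mul, coeff_X_pow_mul', coeff_X_pow, G0, coeff_mk]
  by_cases hn : n < 8
  · interval_cases n <;> simp
  · have e1 : ¬ (n = 1) := by omega
    have e2 : ¬ (n = 3) := by omega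
    have e3 : ¬ (n = 5) := by omega
    have e4 : ¬ (n = 7) := by omega
    have e5 : ¬ (n = 2) := by omega
    have e6 : ¬ (n = 6) := by omega
    have e7 : 4 ≤ n := by omega
    have e8 : 8 ≤ n := by omega
    rw [if_neg e1, if_neg e2, if_neg e3, if_neg e4, if_neg e5, if_neg e6, if_pos e7, if_pos e8]
    have f1 : (n - 4) % 2 = n % 2 := by omega
    have f2 : (n - 8) % 2 = n % 2 := by omega
    have f3 : (n - 4) % 4 = n % 4 := by omega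
    have f4 : (n - 8) % 4 = n % 4 := by omega
    rw [f1, f2, f3, f4]
    split_ifs
    · norm_num
    · have g1 : (((n - 4) / 2 : ℕ) : ℤ) = ((n / 2 : ℕ) : ℤ) - 2 := by omega
      have g2 : (((n - 8) / 2 : ℕ) : ℤ) = ((n / 2 : ℕ) : ℤ) - 4 := by omega
      rw [g1, g2]
      ring
    · norm_num

lemma G_eq (i : ℕ) : expand (4 ^ i) (by positivity) G0 =
    2 * X ^ 4 ^ i * (1 + (X ^ 4 ^ i) ^ 2) * w (i + 1) +
      (X ^ 4 ^ i) ^ 2 * (1 + (X ^ 4 ^ i) ^ 4) * w (i + 1) ^ 2 := by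
  have h1 := congrArg (expand (4 ^ i) (by positivity)) G0_eq
  simp only [map_add, map_mul, map_sub, map_pow, map_one, expand_X, map_ofNat] at h1
  have h2 := w_mul (i + 1)
  rw [pow_succ 4 i, pow_mul] at h2
  set y : ℤ⟦X⟧ := X ^ 4 ^ i
  set e := expand (4 ^ i) (by positivity) G0
  set v := w (i + 1)
  have h3 : v ^ 2 * (1 - y ^ 4) ^ 2 = 1 := by rw [← mul_pow, h2, one_pow]
  linear_combination v ^ 2 * h1 - e * h3 + 2 * y * (1 + y ^ 2) * v * h2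

lemma coeff_G (n i : ℕ) : coeff n (expand (4 ^ i) (by positivity) G0) =
    if 4 ^ i ∣ n then (if (n / 4 ^ i) % 2 = 1 then 2 else if (n / 4 ^ i) % 4 = 2 then
      ((n / 4 ^ i / 2 : ℕ) : ℤ) else 0) else 0 := by
  rw [coeff_expand]
  simp only [G0, coeff_mk]

lemma one_form (y w : ℤ⟦X⟧) (hw : w * (1 - y) = 1) (t : ℕ) : ∃ z, w ^ t = 1 + y * z := by
  induction t with
  | zero => exact ⟨0, by simp⟩
  | succ t ih =>
    obtain ⟨z, hz⟩ := ih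
    have h1 : w = 1 + y * w := by linear_combination hw
    refine ⟨w ^ t * w + z, ?_⟩
    have h2 : w ^ (t + 1) = w ^ t * (1 + y * w) := by rw [← h1, pow_succ]
    rw [h2]
    linear_combination hz

lemma F_eq (t N : ℕ) :
    invOfUnit ((1 - X) ^ t * ∏ i ∈ Finset.range (N + 1), (1 - X ^ 4 ^ i) ^ (3 * t) : ℤ⟦X⟧) 1 =
      (∏ i ∈ Finset.range (N + 1), ((1 - (X ^ 4 ^ i) ^ 4) * w i ^ 4) ^ t) * w (N + 1) ^ t := by
  set T : ℤ⟦X⟧ := (1 - X) ^ t * ∏ i ∈ Finset.range (N + 1), (1 - X ^ 4 ^ i) ^ (3 * t) with hT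
  have h1 : T * invOfUnit T 1 = 1 := by
    apply mul_invOfUnit
    rw [hT]
    simp only [map_mul, map_pow, map_sub, map_one, map_prod, Units.val_one, constantCoeff_X]
    have h2 : ∀ i : ℕ, (0 : ℤ) ^ 4 ^ i = 0 := fun i => zero_pow (by positivity)
    simp only [h2, sub_zero, one_pow, Finset.prod_const_one, mul_one]
  have h3 : T * ((∏ i ∈ Finset.range (N + 1), ((1 - (X ^ 4 ^ i) ^ 4) * w i ^ 4) ^ t) *
      w (N + 1) ^ t) = 1 := by
    have h4 : ∀ i, (w i) * (1 - X ^ 4 ^ i) = 1 := w_mul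
    have h5 : ∏ i ∈ Finset.range (N + 1), (1 - (X ^ 4 ^ i) ^ 4 : ℤ⟦X⟧) =
        (∏ i ∈ Finset.range (N + 1), (1 - X ^ 4 ^ i)) * w 0 * (1 - X ^ 4 ^ (N + 1)) := by
      have h6 : ∀ K : ℕ, (1 - X ^ 4 ^ 0) * ∏ i ∈ Finset.range K, (1 - (X ^ 4 ^ i) ^ 4 : ℤ⟦X⟧) =
          (∏ i ∈ Finset.range K, (1 - X ^ 4 ^ i)) * (1 - X ^ 4 ^ K) := by
        intro K
        induction K with
        | zero => simp
        | succ K ih =>
          rw [Finset.prod_range_succ, ← mul_assoc, ih, Finset.prod_range_succ, ← pow_mul,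
            ← pow_succ]
      have h7 := h6 (N + 1)
      linear_combination w 0 * h7 - (∏ i ∈ Finset.range (N + 1), (1 - (X ^ 4 ^ i) ^ 4 : ℤ⟦X⟧)) * h4 0
    have h8 : (∏ i ∈ Finset.range (N + 1), w i) * (∏ i ∈ Finset.range (N + 1), (1 - X ^ 4 ^ i)) = 1 := by
      rw [← Finset.prod_mul_distrib]
      exact Finset.prod_eq_one fun i _ => h4 i
    have h9 : (1 - X : ℤ⟦X⟧) = 1 - X ^ 4 ^ 0 := by simp
    rw [hT, Finset.prod_pow, Finset.prod_pow, Finset.prod_mul_distrib, h5, Finset.prod_pow, h9]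
    set a := ∏ i ∈ Finset.range (N + 1), w i
    set b := ∏ i ∈ Finset.range (N + 1), (1 - X ^ 4 ^ i : ℤ⟦X⟧)
    have h10 : (1 - X ^ 4 ^ 0) ^ t * b ^ (3 * t) *
        ((b * w 0 * (1 - X ^ 4 ^ (N + 1)) * a ^ 4) ^ t * w (N + 1) ^ t) =
        ((w 0 * (1 - X ^ 4 ^ 0)) * (w (N + 1) * (1 - X ^ 4 ^ (N + 1))) * (a * b) ^ 4) ^ t := by
      rw [pow_mul b 3 t]
      simp only [← mul_pow]
      congr 1
      ring
    rw [h10, h4, h4, h8]
    simp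
  calc invOfUnit T 1 = invOfUnit T 1 * (T * ((∏ i ∈ Finset.range (N + 1),
      ((1 - (X ^ 4 ^ i) ^ 4) * w i ^ 4) ^ t) * w (N + 1) ^ t)) := by rw [h3, mul_one]
    _ = (T * invOfUnit T 1) * ((∏ i ∈ Finset.range (N + 1),
      ((1 - (X ^ 4 ^ i) ^ 4) * w i ^ 4) ^ t) * w (N + 1) ^ t) := by ring
    _ = _ := by rw [h1, one_mul]

lemma S_form (k u n : ℕ) (hn : 1 ≤ n) : ∃ z : ℤ, S (2 ^ (k + 2) * u) n =
    2 ^ (k + 3) * u * (∑ i ∈ Finset.range (n + 1), coeff n (expand (4 ^ i) (by positivity) G0)) +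
      2 ^ (k + 5) * z := by
  unfold S
  rw [F_eq]
  have h1 : ∀ i ∈ Finset.range (n + 1), ∃ z, ((1 - (X ^ 4 ^ i) ^ 4) * w i ^ 4) ^ (2 ^ (k + 2) * u) =
      1 + 2 * (2 * 2 ^ (k + 1) * (u : ℤ⟦X⟧)) * (expand (4 ^ i) (by positivity) G0) +
        8 * (2 * 2 ^ (k + 1)) * z := by
    intro i _
    apply pow_form
    apply pow_two
    rw [G_eq]
    have h2 := w_mul (i + 1)
    rw [pow_succ 4 i, pow_mul] at h2
    exact key _ _ _ (w_mul i) h2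
  obtain ⟨z, hz⟩ := prod_form (2 ^ (k + 1) : ℤ⟦X⟧) (Finset.range (n + 1)) _ _ _ h1
  obtain ⟨z', hz'⟩ := one_form (X ^ 4 ^ (n + 1)) (w (n + 1)) (w_mul _) (2 ^ (k + 2) * u)
  rw [hz, hz']
  refine ⟨coeff n z, ?_⟩
  rw [show ∀ A : ℤ⟦X⟧, A * (1 + X ^ 4 ^ (n + 1) * z') = A + X ^ 4 ^ (n + 1) * (A * z') from
    fun A => by ring]
  rw [map_add, coeff_X_pow_mul', if_neg (by
    have : n + 1 < 4 ^ (n + 1) := Nat.lt_pow_self (by norm_num)
    omega), add_zero, map_add, map_add, coeff_one, if_neg (by omega), zero_add]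
  have h3 : (2 * ∑ i ∈ Finset.range (n + 1), 2 * 2 ^ (k + 1) * (u : ℤ⟦X⟧) *
      (expand (4 ^ i) (by positivity) G0)) = C (2 ^ (k + 3) * (u : ℤ)) *
        ∑ i ∈ Finset.range (n + 1), (expand (4 ^ i) (by positivity) G0) := by
    rw [← Finset.mul_sum, map_mul, map_pow, map_natCast, show (C (2 : ℤ) : ℤ⟦X⟧) = 2 from rfl]
    ring
  have h4 : (8 * (2 * 2 ^ (k + 1)) * z : ℤ⟦X⟧) = C (2 ^ (k + 5) : ℤ) * z := by
    rw [map_pow, show (C (2 : ℤ) : ℤ⟦X⟧) = 2 from rfl]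
    ring
  rw [h3, h4, coeff_C_mul, coeff_C_mul, map_sum]

/-- for `n ≥ 1` the sum over `i` is 2 or odd -/
lemma sum_val (n : ℕ) (hn : 1 ≤ n) :
    (∑ i ∈ Finset.range (n + 1), coeff n (expand (4 ^ i) (by positivity) G0)) = 2 ∨
    Odd (∑ i ∈ Finset.range (n + 1), coeff n (expand (4 ^ i) (by positivity) G0)) := by
  obtain ⟨i, m, hm, hi⟩ := Nat.exists_eq_pow_mul_and_not_dvd (n := n) (by omega) 4 (by norm_num)
  have hiN : i ∈ Finset.range (n + 1) := by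
    rw [Finset.mem_range]
    have h1 : i < 4 ^ i := Nat.lt_pow_self (by norm_num)
    have h2 : 1 ≤ m := by
      rcases Nat.eq_zero_or_pos m with h | h
      · rw [h, mul_zero] at hi; omega
      · exact h
    have h3 : 4 ^ i * 1 ≤ 4 ^ i * m := Nat.mul_le_mul_left _ h2
    omega
  have h1 : ∑ i ∈ Finset.range (n + 1), coeff n (expand (4 ^ i) (by positivity) G0) =
      coeff n (expand (4 ^ i) (by positivity) G0) := by
    apply Finset.sum_eq_single_of_mem i hiN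
    intro j _ hj
    rw [coeff_G]
    split_ifs with h2 h3 h4
    · exfalso
      rcases lt_or_gt_of_ne hj with h5 | h5
      · have h6 : n / 4 ^ j = 4 ^ (i - j) * m := by
          rw [hi, show 4 ^ i = 4 ^ j * 4 ^ (i - j) by rw [← pow_add]; congr 1; omega, mul_assoc,
            Nat.mul_div_cancel_left _ (by positivity)]
        rw [h6] at h3
        have h7 : 4 ∣ 4 ^ (i - j) := dvd_pow_self 4 (by omega)
        obtain ⟨q, hq⟩ := h7
        rw [hq, mul_assoc] at h3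
        omega
      · have h6 : 4 ^ (i + 1) ∣ n := (pow_dvd_pow 4 h5).trans h2
        rw [hi, pow_succ] at h6
        exact hm (Nat.dvd_of_mul_dvd_mul_left (by positivity) h6)
    · exfalso
      rcases lt_or_gt_of_ne hj with h5 | h5
      · have h6 : n / 4 ^ j = 4 ^ (i - j) * m := by
          rw [hi, show 4 ^ i = 4 ^ j * 4 ^ (i - j) by rw [← pow_add]; congr 1; omega, mul_assoc,
            Nat.mul_div_cancel_left _ (by positivity)]
        rw [h6] at h4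
        have h7 : 4 ∣ 4 ^ (i - j) := dvd_pow_self 4 (by omega)
        obtain ⟨q, hq⟩ := h7
        rw [hq, mul_assoc] at h4
        omega
      · have h6 : 4 ^ (i + 1) ∣ n := (pow_dvd_pow 4 h5).trans h2
        rw [hi, pow_succ] at h6
        exact hm (Nat.dvd_of_mul_dvd_mul_left (by positivity) h6)
    · rfl
    · rfl
  rw [h1, coeff_G]
  have h2 : n / 4 ^ i = m := by rw [hi, Nat.mul_div_cancel_left _ (by positivity)]
  rw [if_pos ⟨m, hi⟩, h2]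
  split_ifs with h3 h4
  · exact Or.inl rfl
  · right
    rw [Int.odd_iff]
    omega
  · exfalso
    apply hm
    omega

lemma two_pow_dvd_iff (a b : ℤ) (e : ℕ) (ha : Odd a) (hb : Odd b) (k : ℕ) :
    (4 : ℤ) ^ k ∣ 2 ^ e * a ↔ (4 : ℤ) ^ k ∣ 2 ^ e * b := by
  have h : ∀ c : ℤ, Odd c → ((4 : ℤ) ^ k ∣ 2 ^ e * c ↔ (4 : ℤ) ^ k ∣ 2 ^ e) := by
    intro c hc
    constructor
    · intro h1
      have h2 : IsCoprime ((4 : ℤ) ^ k) c := by
        rw [show (4 : ℤ) = 2 ^ 2 by norm_num, ← pow_mul]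
        exact IsCoprime.pow_left ((Int.isCoprime_iff_gcd_eq_one).2 (by
          have := Int.odd_iff.1 hc
          exact Int.isCoprime_iff_gcd_eq_one.1 ((Int.prime_two.coprime_iff_not_dvd).2 (by omega))))
      exact h2.dvd_of_dvd_mul_right h1
    · intro h1
      exact h1.mul_right c
  rw [h a ha, h b hb]

theorem result (s : ℕ) (hs : 3 ≤ s) (m n : ℕ) :
    emultiplicity (4 : ℤ) (S (2 ^ s * m + 2 ^ (s - 1)) n) =
      emultiplicity (4 : ℤ) (S (2 ^ (s - 1)) n) := by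
  obtain ⟨k, rfl⟩ : ∃ k, s = k + 3 := ⟨s - 3, by omega⟩
  rcases Nat.eq_zero_or_pos n with hn | hn
  · subst hn
    have h0 : ∀ t, S t 0 = 1 := by
      intro t
      unfold S
      rw [coeff_zero_eq_constantCoeff_apply, constantCoeff_invOfUnit]
      rfl
    rw [h0, h0]
  have e1 : 2 ^ (k + 3) * m + 2 ^ (k + 3 - 1) = 2 ^ (k + 2) * (2 * m + 1) := by
    rw [show k + 3 - 1 = k + 2 by omega]; ring
  have e2 : 2 ^ (k + 3 - 1) = 2 ^ (k + 2) * 1 := by rw [show k + 3 - 1 = k + 2 by omega]; ring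
  rw [e1, e2]
  obtain ⟨z1, h1⟩ := S_form k (2 * m + 1) n hn
  obtain ⟨z2, h2⟩ := S_form k 1 n hn
  rw [h1, h2, emultiplicity_eq_emultiplicity_iff]
  intro j
  rcases sum_val n hn with h3 | h3
  · rw [h3]
    have h4 := two_pow_dvd_iff ((2 * m + 1 : ℕ) + 2 * z1) (1 + 2 * z2) (k + 4)
      (by push_cast; exact ⟨m + z1, by ring⟩) ⟨z2, by ring⟩ j
    have h5 : (2 ^ (k + 3) * ((2 * m + 1 : ℕ) : ℤ) * 2 + 2 ^ (k + 5) * z1 : ℤ) =
        2 ^ (k + 4) * ((2 * m + 1 : ℕ) + 2 * z1) := by ring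
    have h6 : (2 ^ (k + 3) * ((1 : ℕ) : ℤ) * 2 + 2 ^ (k + 5) * z2 : ℤ) =
        2 ^ (k + 4) * (1 + 2 * z2) := by push_cast; ring
    rw [h5, h6]
    exact h4
  · obtain ⟨q, hq⟩ := h3
    rw [hq]
    have h4 := two_pow_dvd_iff ((2 * m + 1 : ℕ) * (2 * q + 1) + 4 * z1) (1 * (2 * q + 1) + 4 * z2)
      (k + 3) (by push_cast; exact ⟨m * (2 * q + 1) + q + 2 * z1, by ring⟩)
      ⟨q + 2 * z2, by ring⟩ j
    have h5 : (2 ^ (k + 3) * ((2 * m + 1 : ℕ) : ℤ) * (2 * q + 1) + 2 ^ (k + 5) * z1 : ℤ) =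
        2 ^ (k + 3) * ((2 * m + 1 : ℕ) * (2 * q + 1) + 4 * z1) := by ring
    have h6 : (2 ^ (k + 3) * ((1 : ℕ) : ℤ) * (2 * q + 1) + 2 ^ (k + 5) * z2 : ℤ) =
        2 ^ (k + 3) * (1 * (2 * q + 1) + 4 * z2) := by push_cast; ring
    rw [h5, h6]
    exact h4

end Pool.Agent.Results.MP_c46995_nt.ShiftInvariance
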